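import Pool.Agent.W2helper9.TC.Fin

/-!
# Topological conjugacy of smooth diffeomorphisms is not reducible to any Borel action of `S_∞`
-/

set_option autoImplicit false

open Set
open scoped ContDiff Manifold

namespace Pool.Agent.Results.MP_9aeaaa_lc.NotCountableStructures

universe u v

/-- The set of all smooth diffeomorphisms of the smooth `n`-manifold `M` (without boundary). -/
abbrev Diff (n : ℕ) (M : Type u) [TopologicalSpace M]
    [ChartedSpace (EuclideanSpace ℝ (Fin n)) M] : Type u :=
  Diffeomorph (𝓡 n) (𝓡 n) M M ∞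

/-- The subbasic open set `𝒩(f; φ, ψ, K, k, ε)` of the smooth topology: the diffeomorphisms `g` with
`g(K) ⊆ dom ψ` whose expression `ψ ∘ g ∘ φ⁻¹` in the charts `φ`, `ψ` has all derivatives of order at
most `k` within `ε` of those of `ψ ∘ f ∘ φ⁻¹`, at all points of `φ(K)`. -/
def basicSet {n : ℕ} {M : Type u} [TopologicalSpace M]
    [ChartedSpace (EuclideanSpace ℝ (Fin n)) M]
    (φ ψ : OpenPartialHomeomorph M (EuclideanSpace ℝ (Fin n))) (K : Set M) (f : Diff n M)
    (k : ℕ) (ε : ℝ) : Set (Diff n M) :=
  {g | (∀ p ∈ K, g p ∈ ψ.source) ∧ ∀ p ∈ K, ∀ j ≤ k,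
    ‖iteratedFDeriv ℝ j (fun u => ψ (g (φ.symm u))) (φ p) -
      iteratedFDeriv ℝ j (fun u => ψ (f (φ.symm u))) (φ p)‖ < ε}

/-- The smooth topology of `Diff n M`: uniform convergence of all derivatives on compact sets,
read in smooth charts.  It is generated by the sets `𝒩(f; φ, ψ, K, k, ε)` where `φ`, `ψ` are charts
of the smooth manifold `M`, `K` is a compact subset of the domain of `φ`, the diffeomorphism `f` maps
`K` into the domain of `ψ`, `k` is a natural number and `ε > 0`. -/
@[reducible] def smoothTopology (n : ℕ) (M : Type u) [TopologicalSpace M]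
    [ChartedSpace (EuclideanSpace ℝ (Fin n)) M] : TopologicalSpace (Diff n M) :=
  TopologicalSpace.generateFrom {U | ∃ φ ∈ IsManifold.maximalAtlas (𝓡 n) ∞ M,
    ∃ ψ ∈ IsManifold.maximalAtlas (𝓡 n) ∞ M, ∃ K : Set M, IsCompact K ∧ K ⊆ φ.source ∧
      ∃ f : Diff n M, (∀ p ∈ K, f p ∈ ψ.source) ∧ ∃ (k : ℕ) (ε : ℝ), 0 < ε ∧
        U = basicSet φ ψ K f k ε}

/-- The relation `E_M`: `f` and `g` are topologically conjugate, that is `h ∘ f = g ∘ h` for a
homeomorphism `h` of `M`. -/
def TopConj {n : ℕ} {M : Type u} [TopologicalSpace M]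
    [ChartedSpace (EuclideanSpace ℝ (Fin n)) M] (f g : Diff n M) : Prop :=
  ∃ h : M ≃ₜ M, ∀ p, h (f p) = g (h p)

/-- The Borel structure of the Polish group `S_∞` of all permutations of `ℕ` (topology of
pointwise convergence). -/
def borelPerm : MeasurableSpace (Equiv.Perm ℕ) :=
  MeasurableSpace.generateFrom {U | ∃ i j : ℕ, U = {π : Equiv.Perm ℕ | π i = j}}

/-- The action of `S_∞` on the measurable space `Z` is Borel. -/
def BorelAction (Z : Type v) [MeasurableSpace Z] [MulAction (Equiv.Perm ℕ) Z] : Prop :=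
  @Measurable (Equiv.Perm ℕ × Z) Z (borelPerm.prod inferInstance) inferInstance
    (fun p => p.1 • p.2)

/-- the first two vectors of the standard basis are orthonormal -/
theorem orthonormalPair (n : ℕ) (h0 : 0 < n) (h1 : 1 < n) :
    Pool.Agent.W2helper9.TC.ON (EuclideanSpace.single (⟨0, h0⟩ : Fin n) (1 : ℝ))
      (EuclideanSpace.single (⟨1, h1⟩ : Fin n) (1 : ℝ)) where
  n0 := by simp
  n1 := by simp
  o := by
    rw [EuclideanSpace.inner_single_left]
    simp

/-- **Topological conjugacy of smooth diffeomorphisms is not Borel reducible to any Borel action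
of `S_∞`, on any manifold of dimension at least two.**  Let `M` be a nonempty Hausdorff smooth
manifold (without boundary, for instance compact) of dimension `n ≥ 2`.  For every Borel action of
`S_∞` on a standard Borel space `Z` there is no map `F : Diff^∞(M) → Z`, Borel for the smooth
topology, such that `f`, `g` are topologically conjugate if and only if `F f`, `F g` are in the same
orbit. -/
theorem result (n : ℕ) (hn : 2 ≤ n) (M : Type u) [TopologicalSpace M] [T2Space M] [Nonempty M]
    [ChartedSpace (EuclideanSpace ℝ (Fin n)) M] [IsManifold (𝓡 n) ∞ M]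
    (Z : Type v) [MeasurableSpace Z] [StandardBorelSpace Z] [MulAction (Equiv.Perm ℕ) Z]
    (hZ : BorelAction Z) :
    ¬ ∃ F : Diff n M → Z, @Measurable _ _ (@borel (Diff n M) (smoothTopology n M)) _ F ∧
      ∀ f g : Diff n M, TopConj f g ↔ ∃ π : Equiv.Perm ℕ, π • F f = F g :=
  Pool.Agent.W2helper9.TC.final (orthonormalPair n (by omega) (by omega)) Z hZ

end Pool.Agent.Results.MP_9aeaaa_lc.NotCountableStructures
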